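import Mathlib

/-! The real inequality behind the monotonicity of the Gromov-Hausdorff distance between ball and
sphere in the dimension. -/

set_option autoImplicit false

namespace Pool.Agent.W826.GHB

/-- the reduced inequality -/
theorem core {b s A Q p S : ℝ} (hb0 : 0 < b) (hb1 : b ≤ 1) (hs0 : 0 ≤ s) (hs1 : s ≤ 1)
    (hA : 0 ≤ A) (hQ : 0 ≤ Q)
    (hw : b ^ 2 * s * (2 - s) ≤ Q ^ 2 + 2 * p * Q) (hS : 0 ≤ S) (hS2 : S ^ 2 = Q ^ 2 + A ^ 2) :
    0 ≤ p ^ 2 + 2 * (S - A) + s * (A + b * s) ^ 2 - b ^ 2 * s := by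
  have hSA : A ≤ S := by nlinarith only [hS2, hA, hS, sq_nonneg Q]
  rcases le_or_gt b (A + b * s) with h1 | h1
  · have : s * b ^ 2 ≤ s * (A + b * s) ^ 2 := by
      apply mul_le_mul_of_nonneg_left _ hs0
      exact pow_le_pow_left₀ hb0.le h1 2
    nlinarith only [this, hSA, sq_nonneg p]
  · have hbs : 0 ≤ b * s := mul_nonneg hb0.le hs0
    have hAb : A < b := by linarith
    have hT : s * (b ^ 2 - (A + b * s) ^ 2) ≤ s * (b ^ 2 - A ^ 2 - (b * s) ^ 2) := by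
      apply mul_le_mul_of_nonneg_left _ hs0
      nlinarith only [mul_nonneg hA hbs]
    rcases le_or_gt 1 Q with h2 | h2
    · have h3 : A + 0.4 ≤ S := by
        have : (A + 0.4) ^ 2 ≤ S ^ 2 := by
          rw [hS2]
          nlinarith only [h2, hAb, hb1, hA]
        nlinarith only [this, hA, hS]
      have h4 : s * (b ^ 2 - A ^ 2 - (b * s) ^ 2) ≤ 0.8 := by
        have : s * (b ^ 2 - A ^ 2 - (b * s) ^ 2) ≤ b ^ 2 * (s - s ^ 3) := by
          nlinarith only [mul_nonneg hs0 (sq_nonneg A)]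
        have h5 : s - s ^ 3 ≤ 0.8 := by nlinarith only [hs0, hs1, sq_nonneg (s - 0.6), mul_nonneg hs0 (sq_nonneg (s-0.6))]
        have h6 : 0 ≤ s - s ^ 3 := by nlinarith only [hs0, hs1, mul_nonneg hs0 (mul_nonneg (sub_nonneg.2 hs1) (by linarith : 0 ≤ 1 + s))]
        have h7 : b ^ 2 ≤ 1 := by nlinarith only [hb0, hb1]
        nlinarith only [this, h5, h6, h7, sq_nonneg b]
      nlinarith only [hT, h3, h4, sq_nonneg p]
    · -- main case
      set C := b ^ 2 - A ^ 2 with hC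
      have hC0 : 0 ≤ C := by rw [hC]; nlinarith only [hAb, hA, hb0]
      have hCb : C ≤ b ^ 2 := by rw [hC]; nlinarith only [sq_nonneg A]
      have h3 : C - (b * s) ^ 2 ≤ 0.6 * (2 - s) * C := by
        have : 0 ≤ C * (0.2 - 0.6 * s + s ^ 2) := by
          apply mul_nonneg hC0
          nlinarith only [sq_nonneg (s - 0.3)]
        have h5 : C * s ^ 2 ≤ b ^ 2 * s ^ 2 := mul_le_mul_of_nonneg_right hCb (sq_nonneg s)
        nlinarith only [this, h5]
      set φ := 0.6 * (C / b ^ 2) with hφ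
      have hb2 : 0 < b ^ 2 := by positivity
      have hφ0 : 0 ≤ φ := by rw [hφ]; positivity
      have hφb : φ * b ^ 2 = 0.6 * C := by
        rw [hφ]; field_simp
      have h4 : s * (C - (b * s) ^ 2) ≤ φ * (Q ^ 2 + 2 * p * Q) := by
        calc s * (C - (b * s) ^ 2) ≤ s * (0.6 * (2 - s) * C) := mul_le_mul_of_nonneg_left h3 hs0
          _ = (0.6 * C) * (s * (2 - s)) := by ring
          _ = φ * (b ^ 2 * s * (2 - s)) := by rw [← hφb]; ring
          _ ≤ φ * (Q ^ 2 + 2 * p * Q) := mul_le_mul_of_nonneg_left hw hφ0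
      set Z := Q + 2 * A with hZ
      have hZ0 : 0 ≤ Z := by positivity
      set a := A / b with ha
      have haA : a * b = A := by rw [ha]; field_simp
      have ha0 : 0 ≤ a := by rw [ha]; positivity
      have ha1 : a ≤ 1 := by rw [ha, div_le_one hb0]; exact hAb.le
      have hAa : A ≤ a := by rw [← haA]; nlinarith only [ha0, hb1]
      have hφa : φ = 0.6 * (1 - a ^ 2) := by
        rw [hφ, hC, ha]; field_simp
      have hZ1 : Z ≤ 1 + 2 * a := by rw [hZ]; linarith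
      have h5 : Z * (φ + φ ^ 2) ≤ 2 := by
        have h6 : φ + φ ^ 2 ≤ 0.96 * (1 - a ^ 2) := by
          rw [hφa]
          have : 0 ≤ 1 - a ^ 2 := by nlinarith only [ha0, ha1]
          nlinarith only [this, mul_nonneg this (sq_nonneg a)]
        have h7 : 0 ≤ φ + φ ^ 2 := by positivity
        calc Z * (φ + φ ^ 2) ≤ (1 + 2 * a) * (0.96 * (1 - a ^ 2)) :=
              mul_le_mul hZ1 h6 h7 (by linarith)
          _ ≤ 2 := by nlinarith only [ha0, ha1, sq_nonneg (a - 0.434), mul_nonneg ha0 (sq_nonneg (a-0.434))]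
      -- (S - A) Z ≥ Q ^ 2
      have h8 : Q ^ 2 ≤ (S - A) * Z := by
        have : S ≤ A + Q := by
          have : S ^ 2 ≤ (A + Q) ^ 2 := by rw [hS2]; nlinarith only [mul_nonneg hA hQ]
          nlinarith only [this, hA, hQ, hS]
        have h9 : (S - A) * (S + A) = Q ^ 2 := by nlinarith only [hS2]
        rw [← h9]
        apply mul_le_mul_of_nonneg_left _ (by linarith)
        linarith
      have h10 : 0 ≤ Z * (p - φ * Q) ^ 2 + Q ^ 2 * (2 - Z * (φ + φ ^ 2)) := by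
        have : 0 ≤ 2 - Z * (φ + φ ^ 2) := by linarith
        positivity
      have h11 : 0 ≤ Z * (p ^ 2 + 2 * (S - A) - φ * (Q ^ 2 + 2 * p * Q)) := by
        nlinarith only [h8, h10]
      have hmain : 0 ≤ p ^ 2 + 2 * (S - A) - φ * (Q ^ 2 + 2 * p * Q) := by
        rcases hZ0.lt_or_eq with h12 | h12
        · exact nonneg_of_mul_nonneg_right (by linarith) h12
        · have hQ0 : Q = 0 := by rw [hZ] at h12; linarith
          have hA0 : A = 0 := by rw [hZ] at h12; linarith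
          rw [hQ0]
          nlinarith only [hSA, sq_nonneg p]
      nlinarith only [hT, h4, hmain]

/-- expansion of the main inequality -/
theorem expand {b s A Q p S δ : ℝ} (hb0 : 0 < b) (hb1 : b ≤ 1) (hs0 : 0 ≤ s) (hs1 : s ≤ 1)
    (hA : 0 ≤ A) (hQ : 0 ≤ Q) (hpb : p ^ 2 = 1 - b ^ 2)
    (hw : b ^ 2 * s * (2 - s) ≤ Q ^ 2 + 2 * p * Q) (hS : 0 ≤ S) (hS2 : S ^ 2 = Q ^ 2 + A ^ 2)
    (hδ : 1 ≤ δ) :
    Q ^ 2 + (b * s) ^ 2 + (1 - s) * (b * (δ + s) + A) ^ 2 ≤ (δ + S) ^ 2 := by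
  have h := core hb0 hb1 hs0 hs1 hA hQ hw hS hS2
  have hSA : A ≤ S := by nlinarith only [hS2, hA, hS, sq_nonneg Q]
  have e : (δ + S) ^ 2 - (Q ^ 2 + (b * s) ^ 2 + (1 - s) * (b * (δ + s) + A) ^ 2) =
      δ ^ 2 * p ^ 2 + 2 * δ * (S - b * A) + s * (A + b * (s + δ - 1)) ^ 2 - b ^ 2 * s := by
    rw [hpb]
    nlinarith only [hS2]
  have h1 : p ^ 2 ≤ δ ^ 2 * p ^ 2 := by
    have h0 : 1 ≤ δ ^ 2 := by nlinarith only [hδ]
    nlinarith only [mul_le_mul_of_nonneg_right h0 (sq_nonneg p)]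
  have hbA : b * A ≤ A := by nlinarith only [hb1, hA]
  have h2 : 2 * (S - A) ≤ 2 * δ * (S - b * A) := by nlinarith only [hδ, hSA, hbA]
  have h3 : s * (A + b * s) ^ 2 ≤ s * (A + b * (s + δ - 1)) ^ 2 := by
    apply mul_le_mul_of_nonneg_left _ hs0
    apply pow_le_pow_left₀ (by positivity)
    nlinarith only [hδ, hb0]
  linarith

section Geo

variable {E : Type*} [NormedAddCommGroup E] [InnerProductSpace ℝ E]

theorem norm_smul_sub_sq {u u' : E} {b b' : ℝ} (hu : ‖u‖ = 1) (hu' : ‖u'‖ = 1) :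
    ‖b • u - b' • u'‖ ^ 2 = (b - b') ^ 2 + b * b' * ‖u - u'‖ ^ 2 := by
  rw [norm_sub_sq_real, norm_sub_sq_real, norm_smul, norm_smul, real_inner_smul_left,
    real_inner_smul_right, hu, hu', mul_one, mul_one, Real.norm_eq_abs, Real.norm_eq_abs, sq_abs,
    sq_abs]
  ring

/-- one direction, ordered case -/
theorem half1 {y y' u u' : E} {q q' b b' δ : ℝ} (hq : q ^ 2 + b ^ 2 = 1) (hq' : q' ^ 2 + b' ^ 2 = 1)
    (hb' : 0 ≤ b') (hbb : b' ≤ b) (hy' : ‖y'‖ ≤ 1) (hu : ‖u‖ = 1) (hu' : ‖u'‖ = 1) (hδ : 1 ≤ δ)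
    (h : ‖u - u'‖ ≤ ‖y - y'‖ + δ) :
    √((q - q') ^ 2 + ‖b • u - b' • u'‖ ^ 2) ≤ δ + √((q - q') ^ 2 + ‖b • y - b' • y'‖ ^ 2) := by
  have hb1 : b ≤ 1 := by nlinarith only [hq, sq_nonneg q, sq_nonneg (b - 1)]
  rcases (hb'.trans hbb).lt_or_eq with hb | hb
  · have hA : 0 ≤ ‖b • y - b' • y'‖ := norm_nonneg _
    have hS : 0 ≤ √((q - q') ^ 2 + ‖b • y - b' • y'‖ ^ 2) := Real.sqrt_nonneg _
    have hS2 : √((q - q') ^ 2 + ‖b • y - b' • y'‖ ^ 2) ^ 2 = |q - q'| ^ 2 + ‖b • y - b' • y'‖ ^ 2 := by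
      rw [Real.sq_sqrt (by positivity), sq_abs]
    set S := √((q - q') ^ 2 + ‖b • y - b' • y'‖ ^ 2)
    set A := ‖b • y - b' • y'‖ with hAdef
    set s := (b - b') / b with hs
    have hbs : b * s = b - b' := by rw [hs]; field_simp
    have hs0 : 0 ≤ s := by rw [hs]; exact div_nonneg (by linarith) hb.le
    have hs1 : s ≤ 1 := by rw [hs, div_le_one hb]; linarith
    have hw : b ^ 2 * s * (2 - s) ≤ |q - q'| ^ 2 + 2 * |q| * |q - q'| := by
      have e : b ^ 2 * s * (2 - s) = q' ^ 2 - q ^ 2 := by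
        have : b ^ 2 * s * (2 - s) = (b * s) * (2 * b - b * s) := by ring
        rw [this, hbs]
        nlinarith only [hq, hq']
      have h1 : |q'| ≤ |q| + |q - q'| := by
        have h0 : q' = q - (q - q') := by ring
        calc |q'| = |q - (q - q')| := by rw [← h0]
          _ ≤ |q| + |q - q'| := abs_sub _ _
      have h2 : |q'| ^ 2 ≤ (|q| + |q - q'|) ^ 2 := pow_le_pow_left₀ (abs_nonneg _) h1 2
      have h3 := sq_abs q
      have h4 := sq_abs q'
      nlinarith only [e, h2, h3, h4]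
    have h5 : b * ‖y - y'‖ ≤ A + b * s := by
      have e : b • (y - y') = (b • y - b' • y') - (b - b') • y' := by
        rw [smul_sub, sub_smul]; abel
      have h6 : ‖b • (y - y')‖ = b * ‖y - y'‖ := by
        rw [norm_smul, Real.norm_eq_abs, abs_of_pos hb]
      rw [← h6, e, hbs]
      refine (norm_sub_le _ _).trans ?_
      have : ‖(b - b') • y'‖ ≤ b - b' := by
        rw [norm_smul, Real.norm_eq_abs, abs_of_nonneg (by linarith : 0 ≤ b - b')]
        nlinarith only [hy', hbb]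
      linarith
    have h7 : b * ‖u - u'‖ ≤ b * (δ + s) + A := by nlinarith only [h, h5, hb]
    have h8 : b * b' * ‖u - u'‖ ^ 2 ≤ (1 - s) * (b * (δ + s) + A) ^ 2 := by
      have e : b' = b * (1 - s) := by nlinarith only [hbs]
      have : b * b' * ‖u - u'‖ ^ 2 = (1 - s) * (b * ‖u - u'‖) ^ 2 := by rw [e]; ring
      rw [this]
      apply mul_le_mul_of_nonneg_left _ (by linarith)
      exact pow_le_pow_left₀ (by positivity) h7 2
    have h9 := expand (p := |q|) hb hb1 hs0 hs1 hA (abs_nonneg _) (by rw [sq_abs]; linarith) hw hS hS2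
      hδ
    apply Real.sqrt_le_iff.2
    refine ⟨by linarith, ?_⟩
    rw [norm_smul_sub_sq hu hu']
    rw [sq_abs] at h9
    rw [hbs] at h9
    linarith
  · have hb0' : b' = 0 := by linarith
    have : √((q - q') ^ 2 + ‖b • u - b' • u'‖ ^ 2) = √((q - q') ^ 2 + ‖b • y - b' • y'‖ ^ 2) := by
      rw [← hb, hb0']; simp
    rw [this]; linarith

/-- other direction, ordered case -/
theorem half2 {y y' u u' : E} {q q' b b' δ : ℝ} (hq : q ^ 2 + b ^ 2 = 1)
    (hb' : 0 ≤ b') (hbb : b' ≤ b) (hy : ‖y‖ ≤ 1) (hu : ‖u‖ = 1) (hu' : ‖u'‖ = 1) (hδ : 1 ≤ δ)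
    (h : ‖y - y'‖ ≤ ‖u - u'‖ + δ) :
    √((q - q') ^ 2 + ‖b • y - b' • y'‖ ^ 2) ≤ δ + √((q - q') ^ 2 + ‖b • u - b' • u'‖ ^ 2) := by
  have hb1 : b ≤ 1 := by nlinarith only [hq, sq_nonneg q, sq_nonneg (b - 1)]
  have hB : b' * ‖u - u'‖ ≤ ‖b • u - b' • u'‖ := by
    have : (b' * ‖u - u'‖) ^ 2 ≤ ‖b • u - b' • u'‖ ^ 2 := by
      rw [norm_smul_sub_sq hu hu']
      have : b' * b' * ‖u - u'‖ ^ 2 ≤ b * b' * ‖u - u'‖ ^ 2 := by
        apply mul_le_mul_of_nonneg_right _ (sq_nonneg _)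
        exact mul_le_mul_of_nonneg_right hbb hb'
      nlinarith only [this, sq_nonneg (b - b')]
    exact (abs_le_of_sq_le_sq' this (norm_nonneg _)).2
  have hA : ‖b • y - b' • y'‖ ≤ ‖b • u - b' • u'‖ + δ := by
    have e : b • y - b' • y' = b' • (y - y') + (b - b') • y := by
      rw [smul_sub, sub_smul]; abel
    have h1 : ‖b • y - b' • y'‖ ≤ b' * ‖y - y'‖ + (b - b') * ‖y‖ := by
      rw [e]
      refine (norm_add_le _ _).trans ?_
      rw [norm_smul, norm_smul, Real.norm_eq_abs, Real.norm_eq_abs, abs_of_nonneg hb',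
        abs_of_nonneg (by linarith : 0 ≤ b - b')]
    have h2 : (b - b') * ‖y‖ ≤ b - b' := by nlinarith only [hy, hbb]
    have h3 : b' * ‖y - y'‖ ≤ b' * (‖u - u'‖ + δ) := mul_le_mul_of_nonneg_left h hb'
    nlinarith only [h1, h2, h3, hB, hδ, hb1, hbb, mul_nonneg (by linarith : 0 ≤ 1 - b') (by linarith : 0 ≤ δ - 1)]
  set A := ‖b • y - b' • y'‖
  set B := ‖b • u - b' • u'‖ with hBd
  have hA0 : 0 ≤ A := norm_nonneg _
  have hB0 : 0 ≤ B := norm_nonneg _
  have hS := Real.sqrt_nonneg ((q - q') ^ 2 + B ^ 2)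
  have hS2 := Real.sq_sqrt (by positivity : 0 ≤ (q - q') ^ 2 + B ^ 2)
  apply Real.sqrt_le_iff.2
  refine ⟨by linarith, ?_⟩
  have h4 : B ≤ √((q - q') ^ 2 + B ^ 2) := Real.le_sqrt_of_sq_le (by nlinarith only [sq_nonneg (q - q')])
  have h5 : A ^ 2 ≤ (B + δ) ^ 2 := pow_le_pow_left₀ hA0 hA 2
  nlinarith only [hS2, h4, h5, hδ]

theorem both {y y' u u' : E} {q q' b b' δ : ℝ} (hq : q ^ 2 + b ^ 2 = 1) (hq' : q' ^ 2 + b' ^ 2 = 1)
    (hb : 0 ≤ b) (hb' : 0 ≤ b') (hy : ‖y‖ ≤ 1) (hy' : ‖y'‖ ≤ 1) (hu : ‖u‖ = 1) (hu' : ‖u'‖ = 1)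
    (hδ : 1 ≤ δ) (h : |‖y - y'‖ - ‖u - u'‖| ≤ δ) :
    |√((q - q') ^ 2 + ‖b • y - b' • y'‖ ^ 2) - √((q - q') ^ 2 + ‖b • u - b' • u'‖ ^ 2)| ≤ δ := by
  rw [abs_le] at h ⊢
  rcases le_total b' b with hbb | hbb
  · have h1 := half1 (y := y) hq hq' hb' hbb hy' hu hu' hδ (by linarith [h.1])
    have h2 := half2 (y' := y') (q' := q') hq hb' hbb hy hu hu' hδ (by linarith [h.2])
    constructor <;> linarith
  · have h1 := half1 (y := y') (y' := y) hq' hq hb hbb hy hu' hu hδ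
      (by rw [norm_sub_rev u' u, norm_sub_rev y' y]; linarith [h.1])
    have h2 := half2 (y := y') (y' := y) (q' := q) hq' hb hbb hy' hu' hu hδ
      (by rw [norm_sub_rev u' u, norm_sub_rev y' y]; linarith [h.2])
    have e : (q' - q) ^ 2 = (q - q') ^ 2 := by ring
    rw [norm_sub_rev (b' • u') (b • u), norm_sub_rev (b' • y') (b • y), e] at h1 h2
    constructor <;> linarith

end Geo

end Pool.Agent.W826.GHB
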