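import Mathlib
import Pool.Agent.H921GH.GH
import Pool.Agent.W826.GHB.Ineq

/-! Monotonicity of the Gromov-Hausdorff distance between ball and sphere in the dimension. -/

set_option autoImplicit false

namespace Pool.Agent.W826.GHB

open GromovHausdorff Metric Set

/-- If the Gromov-Hausdorff distance is smaller than `r` there is a correspondence of distortion at
most `2r`. -/
theorem exists_corr_of_ghDist_lt {X Y : Type}
    [MetricSpace X] [CompactSpace X] [Nonempty X] [MetricSpace Y] [CompactSpace Y] [Nonempty Y]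
    {r : ℝ} (h : ghDist X Y < r) :
    ∃ R : X → Y → Prop, (∀ x, ∃ y, R x y) ∧ (∀ y, ∃ x, R x y) ∧
      ∀ x y x' y', R x y → R x' y' → |dist x x' - dist y y'| ≤ 2 * r := by
  obtain ⟨Φ, Ψ, hΦ, hΨ, hd⟩ := ghDist_eq_hausdorffDist X Y
  rw [hd] at h
  have hb1 : Bornology.IsBounded (range Φ) := (isCompact_range hΦ.continuous).isBounded
  have hb2 : Bornology.IsBounded (range Ψ) := (isCompact_range hΨ.continuous).isBounded
  have hfin : hausdorffEDist (range Φ) (range Ψ) ≠ ⊤ :=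
    hausdorffEDist_ne_top_of_nonempty_of_bounded (range_nonempty _) (range_nonempty _) hb1 hb2
  have hfin' : hausdorffEDist (range Ψ) (range Φ) ≠ ⊤ :=
    hausdorffEDist_ne_top_of_nonempty_of_bounded (range_nonempty _) (range_nonempty _) hb2 hb1
  refine ⟨fun x y => dist (Φ x) (Ψ y) < r, ?_, ?_, ?_⟩
  · intro x
    obtain ⟨_, ⟨y, rfl⟩, hy⟩ := exists_dist_lt_of_hausdorffDist_lt (mem_range_self x) h hfin
    exact ⟨y, hy⟩
  · intro y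
    rw [hausdorffDist_comm] at h
    obtain ⟨_, ⟨x, rfl⟩, hx⟩ := exists_dist_lt_of_hausdorffDist_lt (mem_range_self y) h hfin'
    exact ⟨x, by show dist (Φ x) (Ψ y) < r; rwa [dist_comm]⟩
  · intro x y x' y' h1 h2
    rw [← hΦ.dist_eq x x', ← hΨ.dist_eq y y']
    have t1 := dist_triangle4 (Φ x) (Ψ y) (Ψ y') (Φ x')
    have t2 := dist_triangle4 (Ψ y) (Φ x) (Φ x') (Ψ y')
    rw [dist_comm (Ψ y') (Φ x')] at t1
    rw [dist_comm (Ψ y) (Φ x)] at t2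
    rw [abs_le]
    constructor <;> linarith

/-- `ℝ × ℝⁿ → ℝⁿ⁺¹` -/
noncomputable def cc {n : ℕ} (q : ℝ) (v : EuclideanSpace ℝ (Fin n)) :
    EuclideanSpace ℝ (Fin (n + 1)) := WithLp.toLp 2 (Fin.cons q v.ofLp : Fin (n + 1) → ℝ)

theorem norm_cc {n : ℕ} (q : ℝ) (v : EuclideanSpace ℝ (Fin n)) :
    ‖cc q v‖ ^ 2 = q ^ 2 + ‖v‖ ^ 2 := by
  rw [EuclideanSpace.norm_sq_eq, EuclideanSpace.norm_sq_eq, Fin.sum_univ_succ]
  simp [cc]

theorem cc_sub {n : ℕ} (q q' : ℝ) (v v' : EuclideanSpace ℝ (Fin n)) :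
    cc q v - cc q' v' = cc (q - q') (v - v') := by
  ext i
  refine Fin.cases ?_ (fun j => ?_) i <;> simp [cc]

theorem norm_cc_sub {n : ℕ} (q q' : ℝ) (v v' : EuclideanSpace ℝ (Fin n)) :
    ‖cc q v - cc q' v'‖ = √((q - q') ^ 2 + ‖v - v'‖ ^ 2) := by
  rw [cc_sub, ← norm_cc, Real.sqrt_sq (norm_nonneg _)]

theorem exists_cc {n : ℕ} (x : EuclideanSpace ℝ (Fin (n + 1))) : ∃ q v, cc q v = x := by
  refine ⟨x 0, WithLp.toLp 2 (fun i => x i.succ), ?_⟩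
  ext i
  refine Fin.cases ?_ (fun j => ?_) i <;> simp [cc]

theorem exists_smul_ball {n : ℕ} {v : EuclideanSpace ℝ (Fin n)} {b : ℝ} (hb : ‖v‖ ≤ b) :
    ∃ y : EuclideanSpace ℝ (Fin n), ‖y‖ ≤ 1 ∧ b • y = v := by
  rcases ((norm_nonneg v).trans hb).lt_or_eq with h | h
  · refine ⟨b⁻¹ • v, ?_, ?_⟩
    · rw [norm_smul, norm_inv, Real.norm_eq_abs, abs_of_pos h, inv_mul_le_iff₀ h, mul_one]
      exact hb
    · rw [smul_smul, mul_inv_cancel₀ h.ne', one_smul]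
  · refine ⟨0, by simp, ?_⟩
    rw [← h] at hb
    rw [smul_zero, norm_le_zero_iff.1 hb]

theorem exists_smul_sphere {n : ℕ} {v : EuclideanSpace ℝ (Fin n)} {b : ℝ} (hb : ‖v‖ = b)
    (w : EuclideanSpace ℝ (Fin n)) (hw : ‖w‖ = 1) :
    ∃ y : EuclideanSpace ℝ (Fin n), ‖y‖ = 1 ∧ b • y = v := by
  rcases ((norm_nonneg v).trans hb.le).lt_or_eq with h | h
  · refine ⟨b⁻¹ • v, ?_, ?_⟩
    · rw [norm_smul, norm_inv, Real.norm_eq_abs, abs_of_pos h, hb, inv_mul_cancel₀ h.ne']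
    · rw [smul_smul, mul_inv_cancel₀ h.ne', one_smul]
  · refine ⟨w, hw, ?_⟩
    rw [← h] at hb ⊢
    rw [zero_smul, norm_eq_zero.1 hb]

abbrev Bl (n : ℕ) := closedBall (0 : EuclideanSpace ℝ (Fin n)) 1
abbrev Sp (n : ℕ) := sphere (0 : EuclideanSpace ℝ (Fin n)) 1

theorem mem_Bl {n : ℕ} {x : EuclideanSpace ℝ (Fin n)} : x ∈ Bl n ↔ ‖x‖ ≤ 1 := by
  rw [mem_closedBall, dist_zero_right]

theorem mem_Sp {n : ℕ} {x : EuclideanSpace ℝ (Fin n)} : x ∈ Sp n ↔ ‖x‖ = 1 := by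
  rw [mem_sphere, dist_zero_right]

theorem mono_step (n : ℕ) [Nonempty (Sp n)] [Nonempty (Sp (n + 1))]
    (hlow : 1 / 2 ≤ ghDist (Bl n) (Sp n)) :
    ghDist (Bl (n + 1)) (Sp (n + 1)) ≤ ghDist (Bl n) (Sp n) := by
  apply le_of_forall_gt_imp_ge_of_dense
  intro r hr
  obtain ⟨R, hR1, hR2, hR3⟩ := exists_corr_of_ghDist_lt hr
  have hr0 : 1 / 2 < r := lt_of_le_of_lt hlow hr
  let Z := {p : ℝ × (Bl n × Sp n) // p.1 ^ 2 ≤ 1 ∧ R p.2.1 p.2.2}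
  have hb : ∀ p : Z, p.1.1 ^ 2 + √(1 - p.1.1 ^ 2) ^ 2 = 1 := by
    intro p
    rw [Real.sq_sqrt (by linarith [p.2.1])]
    ring
  have hx : ∀ p : Z, ‖(p.1.2.1 : EuclideanSpace ℝ (Fin n))‖ ≤ 1 := fun p => mem_Bl.1 p.1.2.1.2
  have hu : ∀ p : Z, ‖(p.1.2.2 : EuclideanSpace ℝ (Fin n))‖ = 1 := fun p => mem_Sp.1 p.1.2.2.2
  let Φ : Z → Bl (n + 1) := fun p =>
    ⟨cc p.1.1 (√(1 - p.1.1 ^ 2) • (p.1.2.1 : EuclideanSpace ℝ (Fin n))), by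
      rw [mem_Bl]
      have h1 : ‖√(1 - p.1.1 ^ 2) • (p.1.2.1 : EuclideanSpace ℝ (Fin n))‖ ≤ √(1 - p.1.1 ^ 2) := by
        rw [norm_smul, Real.norm_eq_abs, abs_of_nonneg (Real.sqrt_nonneg _)]
        exact mul_le_of_le_one_right (Real.sqrt_nonneg _) (hx p)
      have h2 := pow_le_pow_left₀ (norm_nonneg _) h1 2
      have h3 := norm_cc p.1.1 (√(1 - p.1.1 ^ 2) • (p.1.2.1 : EuclideanSpace ℝ (Fin n)))
      have h4 := hb p
      nlinarith only [h2, h3, h4, norm_nonneg (cc p.1.1 (√(1 - p.1.1 ^ 2) •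
        (p.1.2.1 : EuclideanSpace ℝ (Fin n))))]⟩
  let Ψ : Z → Sp (n + 1) := fun p =>
    ⟨cc p.1.1 (√(1 - p.1.1 ^ 2) • (p.1.2.2 : EuclideanSpace ℝ (Fin n))), by
      rw [mem_Sp]
      have h1 : ‖√(1 - p.1.1 ^ 2) • (p.1.2.2 : EuclideanSpace ℝ (Fin n))‖ = √(1 - p.1.1 ^ 2) := by
        rw [norm_smul, Real.norm_eq_abs, abs_of_nonneg (Real.sqrt_nonneg _), hu p, mul_one]
      have h3 := norm_cc p.1.1 (√(1 - p.1.1 ^ 2) • (p.1.2.2 : EuclideanSpace ℝ (Fin n)))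
      rw [h1, hb p] at h3
      nlinarith only [h3, norm_nonneg (cc p.1.1 (√(1 - p.1.1 ^ 2) •
        (p.1.2.2 : EuclideanSpace ℝ (Fin n))))]⟩
  have hΦ : Function.Surjective Φ := by
    rintro ⟨x, hx1⟩
    obtain ⟨q, v, rfl⟩ := exists_cc x
    rw [mem_Bl] at hx1
    have h1 := norm_cc q v
    have h2 : q ^ 2 + ‖v‖ ^ 2 ≤ 1 := by
      rw [← h1]; nlinarith only [hx1, norm_nonneg (cc q v)]
    have hq : q ^ 2 ≤ 1 := by nlinarith only [h2, sq_nonneg ‖v‖]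
    have h3 : ‖v‖ ≤ √(1 - q ^ 2) := Real.le_sqrt_of_sq_le (by linarith)
    obtain ⟨y, hy1, hy2⟩ := exists_smul_ball h3
    obtain ⟨u, hyu⟩ := hR1 ⟨y, mem_Bl.2 hy1⟩
    refine ⟨⟨(q, (⟨y, mem_Bl.2 hy1⟩, u)), hq, hyu⟩, ?_⟩
    apply Subtype.ext
    show cc q (√(1 - q ^ 2) • y) = cc q v
    rw [hy2]
  have hΨ : Function.Surjective Ψ := by
    rintro ⟨x, hx1⟩
    obtain ⟨q, v, rfl⟩ := exists_cc x
    rw [mem_Sp] at hx1
    have h1 := norm_cc q v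
    rw [hx1] at h1
    have hq : q ^ 2 ≤ 1 := by nlinarith only [h1, sq_nonneg ‖v‖]
    have h3 : ‖v‖ = √(1 - q ^ 2) := by
      rw [eq_comm, Real.sqrt_eq_iff_mul_self_eq (by linarith) (norm_nonneg _)]
      nlinarith only [h1]
    obtain ⟨w⟩ := (inferInstance : Nonempty (Sp n))
    obtain ⟨u, hu1, hu2⟩ := exists_smul_sphere h3 w.1 (mem_Sp.1 w.2)
    obtain ⟨y, hyu⟩ := hR2 ⟨u, mem_Sp.2 hu1⟩
    refine ⟨⟨(q, (y, ⟨u, mem_Sp.2 hu1⟩)), hq, hyu⟩, ?_⟩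
    apply Subtype.ext
    show cc q (√(1 - q ^ 2) • u) = cc q v
    rw [hu2]
  refine H921GH.ghDist_le_of_corr Φ Ψ hΦ hΨ (by linarith) ?_
  intro p p'
  have e1 : dist (Φ p) (Φ p') = √((p.1.1 - p'.1.1) ^ 2 +
      ‖√(1 - p.1.1 ^ 2) • (p.1.2.1 : EuclideanSpace ℝ (Fin n)) -
        √(1 - p'.1.1 ^ 2) • (p'.1.2.1 : EuclideanSpace ℝ (Fin n))‖ ^ 2) := by
    rw [Subtype.dist_eq, dist_eq_norm]
    exact norm_cc_sub _ _ _ _
  have e2 : dist (Ψ p) (Ψ p') = √((p.1.1 - p'.1.1) ^ 2 +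
      ‖√(1 - p.1.1 ^ 2) • (p.1.2.2 : EuclideanSpace ℝ (Fin n)) -
        √(1 - p'.1.1 ^ 2) • (p'.1.2.2 : EuclideanSpace ℝ (Fin n))‖ ^ 2) := by
    rw [Subtype.dist_eq, dist_eq_norm]
    exact norm_cc_sub _ _ _ _
  rw [e1, e2]
  refine both (hb p) (hb p') (Real.sqrt_nonneg _) (Real.sqrt_nonneg _) (hx p) (hx p') (hu p)
    (hu p') (by linarith) ?_
  have h := hR3 p.1.2.1 p.1.2.2 p'.1.2.1 p'.1.2.2 p.2.2 p'.2.2
  rwa [Subtype.dist_eq, dist_eq_norm, Subtype.dist_eq, dist_eq_norm] at h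

end Pool.Agent.W826.GHB
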