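import Mathlib
import Pool.Agent.H921GH.GH
import Pool.Agent.Helper133.BULib
import Pool.Agent.W826.GHB.Mono

/-! Lower bound for the Gromov-Hausdorff distance between ball and sphere, from Borsuk-Ulam. -/

set_option autoImplicit false

namespace Pool.Agent.W826.GHB

open GromovHausdorff Metric Set
open scoped RealInnerProductSpace Topology

section Quant

variable {E : Type*} [NormedAddCommGroup E] [InnerProductSpace ℝ E]

theorem normsq_ge (T : Finset E) (w : E → ℝ) (hw : ∀ y ∈ T, 0 ≤ w y) {c : ℝ} (hc1 : c ≤ 1)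
    (h1 : ∀ y ∈ T, ‖y‖ = 1) (hc : ∀ y ∈ T, ∀ y' ∈ T, c ≤ ⟪y, y'⟫) :
    (1 - c) * (∑ y ∈ T, w y) ^ 2 ≤
      T.card * (‖∑ y ∈ T, w y • y‖ ^ 2 - c * (∑ y ∈ T, w y) ^ 2) := by
  classical
  have e : ‖∑ y ∈ T, w y • y‖ ^ 2 = ∑ y ∈ T, ∑ y' ∈ T, w y * w y' * ⟪y, y'⟫ := by
    rw [← real_inner_self_eq_norm_sq, sum_inner]
    refine Finset.sum_congr rfl fun y _ => ?_
    rw [inner_sum]
    refine Finset.sum_congr rfl fun y' _ => ?_
    rw [real_inner_smul_left, real_inner_smul_right]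
    ring
  have e2 : c * (∑ y ∈ T, w y) ^ 2 + (1 - c) * ∑ y ∈ T, w y ^ 2 =
      ∑ y ∈ T, ∑ y' ∈ T, w y * w y' * (c + (1 - c) * if y = y' then 1 else 0) := by
    rw [sq, Finset.sum_mul_sum, Finset.mul_sum, Finset.mul_sum, ← Finset.sum_add_distrib]
    refine Finset.sum_congr rfl fun y hy => ?_
    have : ∑ y' ∈ T, w y * w y' * (c + (1 - c) * if y = y' then 1 else 0) =
        ∑ y' ∈ T, (c * (w y * w y') + if y = y' then (1 - c) * (w y * w y') else 0) := by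
      refine Finset.sum_congr rfl fun y' _ => ?_
      split_ifs <;> ring
    rw [this, Finset.sum_add_distrib, Finset.sum_ite_eq, if_pos hy, Finset.mul_sum, sq]
  have h2 : c * (∑ y ∈ T, w y) ^ 2 + (1 - c) * ∑ y ∈ T, w y ^ 2 ≤ ‖∑ y ∈ T, w y • y‖ ^ 2 := by
    rw [e, e2]
    refine Finset.sum_le_sum fun y hy => Finset.sum_le_sum fun y' hy' => ?_
    apply mul_le_mul_of_nonneg_left _ (mul_nonneg (hw y hy) (hw y' hy'))
    split_ifs with h
    · rw [← h, real_inner_self_eq_norm_sq, h1 y hy]; linarith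
    · linarith [hc y hy y' hy']
  have h3 : (∑ y ∈ T, w y) ^ 2 ≤ T.card * ∑ y ∈ T, w y ^ 2 := sq_sum_le_card_mul_sum_sq
  have h4 : (0:ℝ) ≤ T.card := Nat.cast_nonneg _
  have h5 : 0 ≤ 1 - c := by linarith
  calc (1 - c) * (∑ y ∈ T, w y) ^ 2 ≤ (1 - c) * (T.card * ∑ y ∈ T, w y ^ 2) :=
        mul_le_mul_of_nonneg_left h3 h5
    _ = T.card * ((1 - c) * ∑ y ∈ T, w y ^ 2) := by ring
    _ ≤ _ := mul_le_mul_of_nonneg_left (by linarith) h4

theorem inner_le (T T' : Finset E) (w : E → ℝ) (hw : ∀ y ∈ T, 0 ≤ w y)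
    (hw' : ∀ y ∈ T', 0 ≤ w y) {e : ℝ} (he : ∀ y ∈ T, ∀ y' ∈ T', ⟪y, -y'⟫ ≤ e) :
    ⟪∑ y ∈ T, w y • y, -∑ y ∈ T', w y • y⟫ ≤ e * ((∑ y ∈ T, w y) * ∑ y ∈ T', w y) := by
  have : ⟪∑ y ∈ T, w y • y, -∑ y ∈ T', w y • y⟫ = ∑ y ∈ T, ∑ y' ∈ T', w y * w y' * ⟪y, -y'⟫ := by
    rw [sum_inner]
    refine Finset.sum_congr rfl fun y _ => ?_
    rw [inner_neg_right, inner_sum, ← Finset.sum_neg_distrib]
    refine Finset.sum_congr rfl fun y' _ => ?_
    rw [real_inner_smul_left, real_inner_smul_right, inner_neg_right]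
    ring
  rw [this, Finset.sum_mul_sum, Finset.mul_sum]
  refine Finset.sum_le_sum fun y hy => ?_
  rw [Finset.mul_sum]
  refine Finset.sum_le_sum fun y' hy' => ?_
  have := mul_le_mul_of_nonneg_left (he y hy y' hy') (mul_nonneg (hw y hy) (hw' y' hy'))
  linarith

/-- the scalar computation -/
theorem scalar {k l c e α β p : ℝ} (hk : 0 ≤ k) (hl : 0 ≤ l)
    (hα : 0 ≤ α) (hβ : 0 ≤ β) (hαβ : α + β = 1) (hc0 : 0 < c) (hc1 : c ≤ 1)
    (hk1 : α ≠ 0 → 1 ≤ k) (hl1 : β ≠ 0 → 1 ≤ l)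
    (h1 : (1 - c) * α ^ 2 ≤ k * (p - c * α ^ 2)) (h2 : (1 - c) * β ^ 2 ≤ l * (p - c * β ^ 2))
    (h3 : p ≤ e * (α * β)) : 1 ≤ k ∧ 1 ≤ l ∧
      (1 - c + k * c) * (1 - c + l * c) ≤ k * l * e ^ 2 := by
  have hα0 : α ≠ 0 := by
    intro h0
    have hb1 : β = 1 := by linarith
    have hl2 := hl1 (by rw [hb1]; exact one_ne_zero)
    rw [h0] at h3
    rw [hb1] at h2
    have : p ≤ 0 := by linarith
    nlinarith only [h2, this, hl2, hc0, hc1]
  have hβ0 : β ≠ 0 := by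
    intro h0
    have hb1 : α = 1 := by linarith
    have hl2 := hk1 (by rw [hb1]; exact one_ne_zero)
    rw [h0] at h3
    rw [hb1] at h1
    have : p ≤ 0 := by linarith
    nlinarith only [h1, this, hl2, hc0, hc1]
  have hk2 := hk1 hα0
  have hl2 := hl1 hβ0
  have hα2 : 0 < α := lt_of_le_of_ne hα hα0.symm
  have hβ2 : 0 < β := lt_of_le_of_ne hβ hβ0.symm
  -- (1 - c + k c) α ≤ k e β
  have h4 : (1 - c + k * c) * α ≤ k * e * β := by
    have : α * ((1 - c + k * c) * α) ≤ α * (k * e * β) := by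
      have := mul_le_mul_of_nonneg_left h3 hk
      nlinarith only [h1, this]
    exact le_of_mul_le_mul_left this hα2
  have h5 : (1 - c + l * c) * β ≤ l * e * α := by
    have : β * ((1 - c + l * c) * β) ≤ β * (l * e * α) := by
      have := mul_le_mul_of_nonneg_left h3 hl
      nlinarith only [h2, this]
    exact le_of_mul_le_mul_left this hβ2
  have hx : 0 ≤ 1 - c := by linarith
  have h6 : (1 - c + k * c) * (1 - c + l * c) ≤ k * l * e ^ 2 := by
    have h7 : 0 ≤ (1 - c + l * c) * β := by positivity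
    have h8 : 0 ≤ (1 - c + k * c) * α := by positivity
    have h9 := mul_le_mul h4 h5 h7 (h8.trans h4)
    have h10 : (α * β) * ((1 - c + k * c) * (1 - c + l * c)) ≤ (α * β) * (k * l * e ^ 2) := by
      nlinarith only [h9]
    exact le_of_mul_le_mul_left h10 (mul_pos hα2 hβ2)
  exact ⟨hk2, hl2, h6⟩

/-- the final scalar inequality -/
theorem scalar2 {k l N : ℕ} {c e : ℝ} (hk : 1 ≤ k) (hl : 1 ≤ l) (hkl : k + l ≤ N) (hc0 : 0 < c)
    (hc1 : c ≤ 1) (h : (1 - c + k * c) * (1 - c + l * c) ≤ k * l * e ^ 2) :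
    (1 - c) * (1 - c + N * c) ≤ ((N ^ 2 / 4 : ℕ) : ℝ) * (e ^ 2 - c ^ 2) := by
  obtain ⟨l', hl'⟩ : ∃ l' : ℕ, k + l' = N := ⟨N - k, by omega⟩
  have hll : l ≤ l' := by omega
  have hllr : (l : ℝ) ≤ l' := by exact_mod_cast hll
  have hk' : (1 : ℝ) ≤ k := by exact_mod_cast hk
  have hlr : (1 : ℝ) ≤ l := by exact_mod_cast hl
  have hNr : (k : ℝ) + l' = N := by exact_mod_cast hl'
  have hx : 0 ≤ 1 - c := by linarith
  have h1 : (1 - c + k * c) * (1 - c + l' * c) ≤ k * l' * e ^ 2 := by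
    have h2 : l * ((1 - c + k * c) * (1 - c + l' * c)) ≤ l * (k * l' * e ^ 2) := by
      have h3 : 0 ≤ 1 - c + k * c := by positivity
      have h4 : (l : ℝ) * (1 - c + l' * c) ≤ l' * (1 - c + l * c) := by nlinarith only [hllr, hx]
      calc l * ((1 - c + k * c) * (1 - c + l' * c)) = (1 - c + k * c) * (l * (1 - c + l' * c)) := by
            ring
        _ ≤ (1 - c + k * c) * (l' * (1 - c + l * c)) := mul_le_mul_of_nonneg_left h4 h3
        _ = l' * ((1 - c + k * c) * (1 - c + l * c)) := by ring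
        _ ≤ l' * (k * l * e ^ 2) := mul_le_mul_of_nonneg_left h (by positivity)
        _ = _ := by ring
    exact le_of_mul_le_mul_left h2 (by linarith)
  have h5 : (k : ℝ) * l' ≤ ((N ^ 2 / 4 : ℕ) : ℝ) := by
    have : k * l' ≤ N ^ 2 / 4 := by
      rw [Nat.le_div_iff_mul_le (by norm_num), ← hl']
      nlinarith only [sq_nonneg ((k : ℤ) - l'), Nat.le_total k l', four_mul_le_sq_add k l']
    exact_mod_cast this
  have h6 : (1 - c) * (1 - c + N * c) ≤ k * l' * (e ^ 2 - c ^ 2) := by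
    rw [← hNr]; nlinarith only [h1]
  have h7 : 0 ≤ e ^ 2 - c ^ 2 := by
    have h8 : 0 ≤ (1 - c) * (1 - c + N * c) := by positivity
    have h9 : 0 ≤ (k * l' : ℝ) * (e ^ 2 - c ^ 2) := h8.trans h6
    have hpos : (0 : ℝ) < k * l' := by
      have : (1 : ℝ) ≤ l' := by linarith
      positivity
    exact nonneg_of_mul_nonneg_right h9 hpos
  exact h6.trans (mul_le_mul_of_nonneg_right h5 h7)

theorem quant [FiniteDimensional ℝ E] {N : ℕ} (hN : Module.finrank ℝ E + 1 ≤ N) {U W : Set E}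
    {c e : ℝ} (hc0 : 0 < c) (hc1 : c ≤ 1) (hU1 : ∀ u ∈ U, ‖u‖ = 1) (hW1 : ∀ u ∈ W, ‖u‖ = 1)
    (hUU : ∀ u ∈ U, ∀ u' ∈ U, c ≤ ⟪u, u'⟫) (hWW : ∀ u ∈ W, ∀ u' ∈ W, c ≤ ⟪u, u'⟫)
    (hUW : ∀ u ∈ U, ∀ w ∈ W, ⟪u, w⟫ ≤ e) {P Q : E} (hP : P ∈ convexHull ℝ U)
    (hQ : Q ∈ convexHull ℝ W) {a b : ℝ} (ha : 0 ≤ a) (hb : 0 ≤ b) (hab : a + b = 1)
    (h : a • P = b • Q) :
    (1 - c) * (1 - c + N * c) ≤ ((N ^ 2 / 4 : ℕ) : ℝ) * (e ^ 2 - c ^ 2) := by
  classical
  have h0 : (0 : E) ∈ convexHull ℝ (U ∪ -W) := by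
    have h1 : P ∈ convexHull ℝ (U ∪ -W) := convexHull_mono subset_union_left hP
    have h2 : -Q ∈ convexHull ℝ (U ∪ -W) := by
      apply convexHull_mono (subset_union_right : -W ⊆ U ∪ -W)
      rw [convexHull_neg]
      simpa using hQ
    have h3 := (convex_convexHull ℝ (U ∪ -W)) h1 h2 ha hb hab
    rwa [h, smul_neg, add_neg_cancel] at h3
  rw [convexHull_eq_union] at h0
  simp only [mem_iUnion] at h0
  obtain ⟨t, htU, hai, ht⟩ := h0
  have hcard : t.card ≤ N := by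
    have h1 := hai.card_le_finrank_succ
    have h2 : Module.finrank ℝ (vectorSpan ℝ (Set.range ((↑) : t → E))) ≤ Module.finrank ℝ E :=
      Submodule.finrank_le _
    rw [Fintype.card_coe] at h1
    omega
  rw [Finset.mem_convexHull'] at ht
  obtain ⟨w, hw, hw1, hw0⟩ := ht
  set tU := t.filter (· ∈ U) with htUd
  set tW := t.filter (· ∉ U) with htWd
  have hUm : ∀ y ∈ tU, y ∈ U := fun y hy => (Finset.mem_filter.1 hy).2
  have hWm : ∀ y ∈ tW, -y ∈ W := fun y hy => by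
    have h1 := Finset.mem_filter.1 hy
    rcases htU h1.1 with h2 | h2
    · exact absurd h2 h1.2
    · exact h2
  have hwU : ∀ y ∈ tU, 0 ≤ w y := fun y hy => hw y (Finset.mem_filter.1 hy).1
  have hwW : ∀ y ∈ tW, 0 ≤ w y := fun y hy => hw y (Finset.mem_filter.1 hy).1
  have hs1 : ∑ y ∈ tU, w y + ∑ y ∈ tW, w y = 1 := by
    rw [htUd, htWd, Finset.sum_filter_add_sum_filter_not, hw1]
  have hs2 : ∑ y ∈ tU, w y • y + ∑ y ∈ tW, w y • y = 0 := by
    rw [htUd, htWd, Finset.sum_filter_add_sum_filter_not, hw0]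
  have hs3 : tU.card + tW.card = t.card := by
    rw [htUd, htWd]; exact Finset.card_filter_add_card_filter_not _
  have hR : -∑ y ∈ tW, w y • y = ∑ y ∈ tU, w y • y := (eq_neg_of_add_eq_zero_left hs2).symm
  have hn : ‖∑ y ∈ tW, w y • y‖ = ‖∑ y ∈ tU, w y • y‖ := by rw [← hR, norm_neg]
  have h1 := normsq_ge tU w hwU hc1 (fun y hy => hU1 y (hUm y hy))
    (fun y hy y' hy' => hUU y (hUm y hy) y' (hUm y' hy'))
  have h2 := normsq_ge tW w hwW hc1 (fun y hy => by rw [← norm_neg]; exact hW1 _ (hWm y hy))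
    (fun y hy y' hy' => by
      have := hWW _ (hWm y hy) _ (hWm y' hy')
      rwa [inner_neg_neg] at this)
  have h3 := inner_le tU tW w hwU hwW (e := e) (fun y hy y' hy' => hUW _ (hUm y hy) _ (hWm y' hy'))
  rw [hR, real_inner_self_eq_norm_sq] at h3
  rw [hn] at h2
  obtain ⟨h5, h6, h7⟩ := scalar (k := tU.card) (l := tW.card) (α := ∑ y ∈ tU, w y)
    (β := ∑ y ∈ tW, w y) (p := ‖∑ y ∈ tU, w y • y‖ ^ 2) (Nat.cast_nonneg _) (Nat.cast_nonneg _)
    (Finset.sum_nonneg hwU) (Finset.sum_nonneg hwW) hs1 hc0 hc1 (fun h4 => by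
      have : tU.Nonempty := Finset.nonempty_of_sum_ne_zero h4
      exact_mod_cast this.card_pos) (fun h4 => by
      have : tW.Nonempty := Finset.nonempty_of_sum_ne_zero h4
      exact_mod_cast this.card_pos) h1 h2 h3
  exact scalar2 (k := tU.card) (l := tW.card) (N := N) (by exact_mod_cast h5) (by exact_mod_cast h6)
    (by omega) hc0 hc1 h7

end Quant

end Pool.Agent.W826.GHB
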