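import Mathlib
import Pool.Agent.Helper133.BULib
import Pool.Agent.W826.GHB.Lower

/-! Topological part of the lower bound. -/

set_option autoImplicit false

namespace Pool.Agent.W826.GHB

open GromovHausdorff Metric Set
open scoped RealInnerProductSpace Topology

/-- radial retraction on the ball -/
noncomputable def ret {n : ℕ} (w : EuclideanSpace ℝ (Fin n)) : Bl n :=
  ⟨(max 1 ‖w‖)⁻¹ • w, by
    rw [mem_Bl, norm_smul, norm_inv, Real.norm_eq_abs, abs_of_pos (by positivity)]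
    rw [inv_mul_le_iff₀ (by positivity), mul_one]
    exact le_max_right _ _⟩

theorem ret_cont {n : ℕ} : Continuous (ret (n := n)) := by
  apply Continuous.subtype_mk
  have h : Continuous fun w : EuclideanSpace ℝ (Fin n) => (max 1 ‖w‖)⁻¹ :=
    (continuous_const.max continuous_norm).inv₀ (fun x => by positivity)
  exact h.smul continuous_id'

theorem ret_neg {n : ℕ} (w : EuclideanSpace ℝ (Fin n)) :
    ((ret (-w) : Bl n) : EuclideanSpace ℝ (Fin n)) = -(ret w : EuclideanSpace ℝ (Fin n)) := by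
  simp only [ret, norm_neg, smul_neg]

theorem ret_norm {n : ℕ} {w : EuclideanSpace ℝ (Fin n)} (hw : 1 ≤ ‖w‖) :
    ‖(ret w : EuclideanSpace ℝ (Fin n))‖ = 1 := by
  show ‖(max 1 ‖w‖)⁻¹ • w‖ = 1
  rw [max_eq_right hw, norm_smul, norm_inv, norm_norm, inv_mul_cancel₀ (by linarith)]

/-- cut-off -/
noncomputable def cut (t : ℝ) : ℝ := max 0 (min 1 (1 / 2 + t))

theorem cut_cont : Continuous cut := by unfold cut; fun_prop

theorem cut_nonneg (t : ℝ) : 0 ≤ cut t := le_max_left _ _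

theorem cut_one {t : ℝ} (h : 1 / 2 ≤ t) : cut t = 1 := by
  unfold cut
  rw [min_eq_left (by linarith), max_eq_right (by norm_num)]

theorem cut_zero {t : ℝ} (h : t ≤ -(1 / 2)) : cut t = 0 := by
  unfold cut
  rw [max_eq_left]
  exact (min_le_right _ _).trans (by linarith)

theorem cut_mid {t : ℝ} (h1 : -(1 / 2) ≤ t) (h2 : t ≤ 1 / 2) : cut t = 1 / 2 + t := by
  unfold cut
  rw [min_eq_right (by linarith), max_eq_right (by linarith)]

theorem bu {n : ℕ} (F : C(Bl n, EuclideanSpace ℝ (Fin n))) :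
    (∃ y, F y = 0) ∨ ∃ y y' : Bl n, (y' : EuclideanSpace ℝ (Fin n)) = -y ∧
      ‖(y : EuclideanSpace ℝ (Fin n))‖ = 1 ∧
      ∃ a b : ℝ, 0 ≤ a ∧ 0 ≤ b ∧ a + b = 1 ∧ a • F y = b • F y' := by
  let L : ℝ := 2 * n + 2
  let v : (Fin (n + 1) → ℝ) → EuclideanSpace ℝ (Fin n) :=
    fun x => WithLp.toLp 2 (fun i => L * x i.succ)
  have hvc : Continuous v := by
    apply (PiLp.continuous_toLp 2 _).comp
    fun_prop
  have hvn : ∀ x, v (-x) = - v x := by
    intro x
    ext i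
    simp [v]
  let G : (Fin (n + 1) → ℝ) → EuclideanSpace ℝ (Fin n) := fun x =>
    cut (x 0) • F (ret (v x)) - cut (-(x 0)) • F (ret (-v x))
  have hGc : Continuous G := by
    apply Continuous.sub
    · exact (cut_cont.comp (continuous_apply 0)).smul (F.continuous.comp (ret_cont.comp hvc))
    · exact (cut_cont.comp (continuous_apply 0).neg).smul
        (F.continuous.comp (ret_cont.comp hvc.neg))
  have hGo : ∀ x, G (-x) = -G x := by
    intro x
    simp only [G, hvn, Pi.neg_apply, neg_neg, neg_sub]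
  obtain ⟨x, hxK, hx⟩ := Helper133.BU.borsuk_ulam n (fun x => (G x).ofLp)
    ((PiLp.continuous_ofLp 2 _).comp hGc) (fun x => by rw [hGo]; rfl)
  have hG0 : G x = 0 := by
    ext i
    exact congrFun hx i
  have hG1 : cut (x 0) • F (ret (v x)) = cut (-(x 0)) • F (ret (-v x)) := sub_eq_zero.1 hG0
  rcases le_or_gt (1 / 2) (x 0) with h1 | h1
  · left
    rw [cut_one h1, cut_zero (by linarith), one_smul, zero_smul] at hG1
    exact ⟨_, hG1⟩
  rcases le_or_gt (x 0) (-(1 / 2)) with h2 | h2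
  · left
    rw [cut_zero h2, cut_one (by linarith), one_smul, zero_smul] at hG1
    exact ⟨_, hG1.symm⟩
  right
  have hv1 : 1 ≤ ‖v x‖ := by
    by_contra hcon
    push Not at hcon
    have hL : 0 < L := by positivity
    have h3 : ∀ i : Fin n, |x i.succ| ≤ 1 / L := by
      intro i
      have h4 : ‖(v x) i‖ ≤ ‖v x‖ := PiLp.norm_apply_le (v x) i
      have h5 : (v x) i = L * x i.succ := rfl
      rw [h5, Real.norm_eq_abs, abs_mul, abs_of_pos hL] at h4
      rw [le_div_iff₀ hL]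
      linarith
    have h6 : ∑ i, |x i| = 1 := hxK
    rw [Fin.sum_univ_succ] at h6
    have h7 : ∑ i : Fin n, |x i.succ| ≤ ∑ _i : Fin n, 1 / L := Finset.sum_le_sum fun i _ => h3 i
    rw [Finset.sum_const, Finset.card_univ, Fintype.card_fin, nsmul_eq_mul] at h7
    have h8 : (n : ℝ) * (1 / L) < 1 / 2 := by
      rw [mul_one_div, div_lt_div_iff₀ hL (by norm_num)]
      show (n : ℝ) * 2 < 1 * (2 * n + 2)
      linarith
    have h9 : |x 0| < 1 / 2 := abs_lt.2 ⟨by linarith, h1⟩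
    linarith
  refine ⟨ret (v x), ret (-v x), ret_neg _, ret_norm hv1, cut (x 0), cut (-(x 0)), cut_nonneg _,
    cut_nonneg _, ?_, hG1⟩
  rw [cut_mid h2.le h1.le, cut_mid (by linarith) (by linarith)]
  ring

/-- continuous approximation -/
theorem approx {n : ℕ} (f : Bl n → EuclideanSpace ℝ (Fin n)) {ε : ℝ} (hε : 0 < ε) :
    ∃ F : C(Bl n, EuclideanSpace ℝ (Fin n)), ∀ y, F y ∈ convexHull ℝ (f '' {x | dist x y < ε}) := by
  refine exists_continuous_forall_mem_convex_of_local_const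
    (t := fun y => convexHull ℝ (f '' {x | dist x y < ε})) (fun y => convex_convexHull ℝ _) ?_
  intro x
  refine ⟨f x, ?_⟩
  filter_upwards [Metric.ball_mem_nhds x hε] with y hy
  apply subset_convexHull
  exact ⟨x, by rw [mem_ball, dist_comm] at hy; exact hy, rfl⟩

theorem inner_eq {E : Type*} [NormedAddCommGroup E] [InnerProductSpace ℝ E] {u v : E}
    (hu : ‖u‖ = 1) (hv : ‖v‖ = 1) : ⟪u, v⟫ = 1 - ‖u - v‖ ^ 2 / 2 := by
  rw [norm_sub_sq_real, hu, hv]; ring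

/-- The inequality for every map of the ball to the sphere. -/
theorem map_ineq {n : ℕ} (f : Bl n → Sp n) {δ δ' : ℝ}
    (hf : ∀ x y, |dist x y - dist (f x) (f y)| ≤ δ) (hδ1 : δ < δ') (h44 : δ' < 4 / 3) :
    (1 - (1 - δ' ^ 2 / 2)) * (1 - (1 - δ' ^ 2 / 2) + ((n + 1 : ℕ) : ℝ) * (1 - δ' ^ 2 / 2)) ≤
      (((n + 1) ^ 2 / 4 : ℕ) : ℝ) * ((1 - (2 - δ') ^ 2 / 2) ^ 2 - (1 - δ' ^ 2 / 2) ^ 2) := by
  have hδ'0 : 0 < δ' := by
    have := hf ⟨0, by simp⟩ ⟨0, by simp⟩
    rw [dist_self, dist_self, sub_zero, abs_zero] at this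
    linarith
  obtain ⟨F, hF⟩ := approx (fun x => (f x : EuclideanSpace ℝ (Fin n)))
    (show 0 < (δ' - δ) / 2 by linarith)
  have hnorm : ∀ x, ‖(f x : EuclideanSpace ℝ (Fin n))‖ = 1 := fun x => mem_Sp.1 (f x).2
  have hclose : ∀ y : Bl n, ∀ u ∈ (fun x => (f x : EuclideanSpace ℝ (Fin n))) ''
      {x | dist x y < (δ' - δ) / 2}, ∀ u' ∈ (fun x => (f x : EuclideanSpace ℝ (Fin n))) ''
      {x | dist x y < (δ' - δ) / 2}, 1 - δ' ^ 2 / 2 ≤ ⟪u, u'⟫ := by
    rintro y _ ⟨x, hx, rfl⟩ _ ⟨x', hx', rfl⟩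
    have h1 : dist x x' < δ' - δ := by
      have := dist_triangle_right x x' y
      have h2 : dist x y < (δ' - δ) / 2 := hx
      have h3 : dist x' y < (δ' - δ) / 2 := hx'
      linarith
    have h2 := hf x x'
    rw [abs_le] at h2
    have h3 : dist (f x) (f x') ≤ δ' := by linarith [h2.1]
    rw [Subtype.dist_eq, dist_eq_norm] at h3
    show 1 - δ' ^ 2 / 2 ≤ ⟪(f x : EuclideanSpace ℝ (Fin n)), (f x' : EuclideanSpace ℝ (Fin n))⟫
    rw [inner_eq (hnorm x) (hnorm x')]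
    have := pow_le_pow_left₀ (norm_nonneg _) h3 2
    linarith
  have hc0 : 0 < 1 - δ' ^ 2 / 2 := by nlinarith only [h44, hδ'0]
  have hc1 : 1 - δ' ^ 2 / 2 ≤ 1 := by nlinarith only [sq_nonneg δ']
  have hall : ∀ y : Bl n, ∀ u ∈ (fun x => (f x : EuclideanSpace ℝ (Fin n))) ''
      {x | dist x y < (δ' - δ) / 2}, ‖u‖ = 1 := by
    rintro y _ ⟨x, -, rfl⟩
    exact hnorm x
  rcases bu F with ⟨y, hy⟩ | ⟨y, y', hyy, hy1, a, b, ha, hb, hab, h⟩
  · exfalso
    have h1 := hF y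
    rw [hy] at h1
    obtain ⟨u0, hu0⟩ := (convexHull_nonempty_iff (𝕜 := ℝ)).1 ⟨_, h1⟩
    have h2 : convexHull ℝ ((fun x => (f x : EuclideanSpace ℝ (Fin n))) ''
        {x | dist x y < (δ' - δ) / 2}) ⊆ {v | 1 - δ' ^ 2 / 2 ≤ ⟪u0, v⟫} := by
      apply convexHull_min
      · intro u hu
        exact hclose y u0 hu0 u hu
      · exact convex_halfSpace_ge (innerₗ _ u0).isLinear _
    have h3 : 1 - δ' ^ 2 / 2 ≤ ⟪u0, (0 : EuclideanSpace ℝ (Fin n))⟫ := h2 h1
    rw [inner_zero_right] at h3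
    linarith
  · have hfar : ∀ u ∈ (fun x => (f x : EuclideanSpace ℝ (Fin n))) ''
        {x | dist x y < (δ' - δ) / 2}, ∀ u' ∈ (fun x => (f x : EuclideanSpace ℝ (Fin n))) ''
        {x | dist x y' < (δ' - δ) / 2}, ⟪u, u'⟫ ≤ 1 - (2 - δ') ^ 2 / 2 := by
      rintro _ ⟨x, hx, rfl⟩ _ ⟨x', hx', rfl⟩
      have hyd : dist y y' = 2 := by
        rw [Subtype.dist_eq, dist_eq_norm, hyy, sub_neg_eq_add, ← two_smul ℝ, norm_smul, hy1]
        norm_num
      have h1 : 2 - (δ' - δ) < dist x x' := by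
        have := dist_triangle4 y x x' y'
        have h2 : dist x y < (δ' - δ) / 2 := hx
        have h3 : dist x' y' < (δ' - δ) / 2 := hx'
        rw [dist_comm] at h2
        linarith
      have h2 := hf x x'
      rw [abs_le] at h2
      have h3 : 2 - δ' ≤ dist (f x) (f x') := by linarith [h2.2]
      rw [Subtype.dist_eq, dist_eq_norm] at h3
      show ⟪(f x : EuclideanSpace ℝ (Fin n)), (f x' : EuclideanSpace ℝ (Fin n))⟫ ≤ _
      rw [inner_eq (hnorm x) (hnorm x')]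
      have := pow_le_pow_left₀ (by linarith : 0 ≤ 2 - δ') h3 2
      linarith
    exact quant (N := n + 1) (by simp) hc0 hc1 (hall y) (hall y') (hclose y) (hclose y') hfar
      (hF y) (hF y') ha hb hab h

/-- The inequality in terms of half the distortion. -/
theorem half_ineq {n : ℕ} (f : Bl n → Sp n) {D D' : ℝ}
    (hf : ∀ x y, |dist x y - dist (f x) (f y)| ≤ 2 * D) (hD : D < D') (hD' : D' < 2 / 3) :
    D' * ((n + 1) - 2 * n * D' ^ 2) ≤
      4 * (((n + 1) ^ 2 / 4 : ℕ) : ℝ) * ((1 - D') * (2 * D' - 1)) := by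
  have h := map_ineq f hf (δ' := 2 * D') (by linarith) (by linarith)
  have h0 : 0 < D' := by
    have := hf ⟨0, by simp⟩ ⟨0, by simp⟩
    rw [dist_self, dist_self, sub_zero, abs_zero] at this
    linarith
  have h1 : (2 * D') * (D' * ((n + 1) - 2 * n * D' ^ 2)) ≤
      (2 * D') * (4 * (((n + 1) ^ 2 / 4 : ℕ) : ℝ) * ((1 - D') * (2 * D' - 1))) := by
    have hN : ((n + 1 : ℕ) : ℝ) = n + 1 := by push_cast; ring
    rw [hN] at h
    nlinarith only [h]
  exact le_of_mul_le_mul_left h1 (by linarith)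

/-- The lower bound for every map of the ball to the sphere. -/
theorem map_lower {n : ℕ} (hn : 2 ≤ n) (f : Bl n → Sp n) {D : ℝ}
    (hf : ∀ x y, |dist x y - dist (f x) (f y)| ≤ 2 * D) :
    1 / (1 + √((n - 1) / (n + 1))) ≤ D := by
  by_contra hcon
  push Not at hcon
  set σ := √(((n : ℝ) - 1) / (n + 1)) with hσ
  have hn' : (2 : ℝ) ≤ n := by exact_mod_cast hn
  have hσ2 : σ ^ 2 = ((n : ℝ) - 1) / (n + 1) := by
    rw [hσ, Real.sq_sqrt]; apply div_nonneg <;> linarith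
  have hσ0 : 0 ≤ σ := Real.sqrt_nonneg _
  have hσ3 : 1 / 3 ≤ σ ^ 2 := by
    rw [hσ2, div_le_div_iff₀ (by norm_num) (by linarith)]; linarith
  have hσ4 : 1 / 2 ≤ σ := by nlinarith only [hσ3, hσ0]
  obtain ⟨D', hD1, hD2⟩ := exists_between hcon
  have hD'0 : 0 < D' := by
    have := hf ⟨0, by simp⟩ ⟨0, by simp⟩
    rw [dist_self, dist_self, sub_zero, abs_zero] at this
    linarith
  have h43 : D' * (1 + σ) < 1 := by rwa [lt_div_iff₀ (by linarith)] at hD2
  have h44 : D' < 2 / 3 := by nlinarith only [h43, hσ4, hD'0]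
  have h := half_ineq f hf hD1 h44
  -- `2 D' - 1 ≥ 0`
  have h5 : 0 < D' * ((n + 1) - 2 * n * D' ^ 2) := by
    have : D' ^ 2 < 4 / 9 := by nlinarith only [h44, hD'0]
    have h6 : 2 * n * D' ^ 2 < 2 * n * (4 / 9) := mul_lt_mul_of_pos_left this (by linarith)
    have : 0 < ((n : ℝ) + 1) - 2 * n * D' ^ 2 := by linarith
    positivity
  have h7 : 0 < 2 * D' - 1 := by
    by_contra hc
    push Not at hc
    have : (1 - D') * (2 * D' - 1) ≤ 0 := mul_nonpos_of_nonneg_of_nonpos (by linarith) hc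
    have h8 : 4 * (((n + 1) ^ 2 / 4 : ℕ) : ℝ) * ((1 - D') * (2 * D' - 1)) ≤ 0 :=
      mul_nonpos_of_nonneg_of_nonpos (by positivity) this
    linarith
  have h8 : 4 * (((n + 1) ^ 2 / 4 : ℕ) : ℝ) ≤ (n + 1) ^ 2 := by
    have : 4 * ((n + 1) ^ 2 / 4) ≤ (n + 1) ^ 2 := Nat.mul_div_le _ _
    exact_mod_cast this
  have h9 : D' * ((n + 1) - 2 * n * D' ^ 2) ≤ (n + 1) ^ 2 * ((1 - D') * (2 * D' - 1)) :=
    h.trans (mul_le_mul_of_nonneg_right h8 (mul_nonneg (by linarith) h7.le))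
  have hfac : (n + 1) ^ 2 * ((1 - D') * (2 * D' - 1)) - D' * ((n + 1) - 2 * n * D' ^ 2) =
      ((n - 1) * D' ^ 2 - (n + 1) * (1 - D') ^ 2) * ((n + 1) - n * D') := by
    ring
  have h10 : 0 < ((n : ℝ) + 1) - n * D' := by nlinarith only [h44, hn']
  have h11 : 0 ≤ ((n : ℝ) - 1) * D' ^ 2 - (n + 1) * (1 - D') ^ 2 := by
    by_contra hc
    push Not at hc
    have := mul_neg_of_neg_of_pos hc h10
    linarith
  have h12 : (1 - D') ^ 2 ≤ (D' * σ) ^ 2 := by
    rw [mul_pow, hσ2, mul_div_assoc', le_div_iff₀ (by linarith)]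
    linarith
  have h13 : 1 - D' ≤ D' * σ := (abs_le_of_sq_le_sq' h12 (by positivity)).2
  linarith

/-- The lower bound for the Gromov-Hausdorff distance. -/
theorem gh_lower {n : ℕ} (hn : 2 ≤ n) [Nonempty (Sp n)] :
    1 / (1 + √((n - 1) / (n + 1))) ≤ ghDist (Bl n) (Sp n) := by
  apply le_of_forall_gt_imp_ge_of_dense
  intro r hr
  obtain ⟨f, hf⟩ := H921GH.exists_map_of_ghDist_lt hr
  exact map_lower hn f hf

/-- The polynomial inequality for the Gromov-Hausdorff distance. -/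
theorem gh_poly {n : ℕ} [Nonempty (Sp n)] (h : ghDist (Bl n) (Sp n) < 2 / 3) :
    ghDist (Bl n) (Sp n) * ((n + 1) - 2 * n * ghDist (Bl n) (Sp n) ^ 2) ≤
      4 * (((n + 1) ^ 2 / 4 : ℕ) : ℝ) *
        ((1 - ghDist (Bl n) (Sp n)) * (2 * ghDist (Bl n) (Sp n) - 1)) := by
  set D := ghDist (Bl n) (Sp n) with hDdef
  have hcl : IsClosed {x : ℝ | x * ((n + 1) - 2 * n * x ^ 2) ≤
      4 * (((n + 1) ^ 2 / 4 : ℕ) : ℝ) * ((1 - x) * (2 * x - 1))} := by
    apply isClosed_le <;> fun_prop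
  have hsub : Set.Ioo D (2 / 3) ⊆ {x : ℝ | x * ((n + 1) - 2 * n * x ^ 2) ≤
      4 * (((n + 1) ^ 2 / 4 : ℕ) : ℝ) * ((1 - x) * (2 * x - 1))} := by
    intro x hx
    obtain ⟨r, hr1, hr2⟩ := exists_between hx.1
    obtain ⟨f, hf⟩ := H921GH.exists_map_of_ghDist_lt (hDdef ▸ hr1)
    exact half_ineq f hf hr2 hx.2
  have hmem : D ∈ closure (Set.Ioo D (2 / 3)) := by
    rw [closure_Ioo h.ne]
    exact ⟨le_rfl, h.le⟩
  exact (hcl.closure_subset_iff.2 hsub) hmem

end Pool.Agent.W826.GHB
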