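import Mathlib
import Pool.Agent.Helper133.Brouwer
import Pool.Agent.W826.GHB.Top

/-! A lower bound larger than `1/2`, uniform in the dimension, using both maps of a correspondence. -/

set_option autoImplicit false

namespace Pool.Agent.W826.GHB

open GromovHausdorff Metric Set
open scoped RealInnerProductSpace Topology

theorem near_point {E : Type*} [NormedAddCommGroup E] [InnerProductSpace ℝ E] {W : Set E} {x : E}
    {d : ℝ} (hx : x ∈ convexHull ℝ W) (hW : ∀ w ∈ W, ∀ w' ∈ W, ‖w - w'‖ ≤ d) :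
    ∃ w ∈ W, ‖x - w‖ ^ 2 ≤ d ^ 2 / 2 := by
  by_contra hcon
  push Not at hcon
  obtain ⟨w0, hw0⟩ := (convexHull_nonempty_iff (𝕜 := ℝ)).1 ⟨_, hx⟩
  have hsub : convexHull ℝ W ⊆ {w | ⟪x - w0, w⟫ < ⟪x - w0, x⟫} := by
    apply convexHull_min
    · intro w hw
      show ⟪x - w0, w⟫ < ⟪x - w0, x⟫
      have h1 := hcon w hw
      have h2 := hcon w0 hw0
      have h3 := hW w hw w0 hw0
      have h4 : ‖w - w0‖ ^ 2 = ‖x - w‖ ^ 2 + ‖x - w0‖ ^ 2 +
          2 * (⟪x - w0, w⟫ - ⟪x - w0, x⟫) := by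
        have e : w - w0 = (x - w0) - (x - w) := by abel
        rw [e, norm_sub_sq_real (x - w0) (x - w), inner_sub_right (x - w0) x w]; ring
      have h5 := pow_le_pow_left₀ (norm_nonneg _) h3 2
      nlinarith only [h1, h2, h4, h5]
    · exact convex_halfSpace_lt (innerₗ _ (x - w0)).isLinear _
  have hfin : ⟪x - w0, x⟫ < ⟪x - w0, x⟫ := hsub hx
  exact lt_irrefl _ hfin

theorem approxX {X : Type*} [MetricSpace X] {n : ℕ} (f : X → EuclideanSpace ℝ (Fin n)) {ε : ℝ}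
    (hε : 0 < ε) :
    ∃ F : C(X, EuclideanSpace ℝ (Fin n)), ∀ y, F y ∈ convexHull ℝ (f '' {x | dist x y < ε}) := by
  refine exists_continuous_forall_mem_convex_of_local_const
    (t := fun y => convexHull ℝ (f '' {x | dist x y < ε})) (fun y => convex_convexHull ℝ _) ?_
  intro x
  refine ⟨f x, ?_⟩
  filter_upwards [Metric.ball_mem_nhds x hε] with y hy
  apply subset_convexHull
  exact ⟨x, by rw [mem_ball, dist_comm] at hy; exact hy, rfl⟩

/-- the scalar conclusion -/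
theorem radius_scalar {t lam : ℝ} (ht : 0 < t) (hl : 0 < lam)
    (h1 : 1 - t / 2 ≤ lam ^ 2) (h2 : lam ≤ t * (1 + √2 / 2) ^ 2 / 2 - 1) :
    16 ≤ t * (1 + √2) ^ 3 := by
  set w := √2 with hw
  have hw2 : w ^ 2 = 2 := by rw [hw]; exact Real.sq_sqrt (by norm_num)
  have hw0 : 0 ≤ w := Real.sqrt_nonneg _
  have e1 : t * (1 + w / 2) ^ 2 / 2 = t * (1 + w) ^ 2 / 4 := by
    have : (1 + w / 2) ^ 2 = (1 + w) ^ 2 / 2 := by nlinarith only [hw2]
    rw [this]; ring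
  rw [e1] at h2
  have h3 : lam ^ 2 ≤ (t * (1 + w) ^ 2 / 4 - 1) ^ 2 := pow_le_pow_left₀ hl.le h2 2
  have h4 : 0 ≤ t * (t * (1 + w) ^ 4 / 16 - (1 + w) ^ 2 / 2 + 1 / 2) := by nlinarith only [h1, h3]
  have h5 : 0 ≤ t * (1 + w) ^ 4 / 16 - (1 + w) ^ 2 / 2 + 1 / 2 := nonneg_of_mul_nonneg_right h4 ht
  have e2 : (1 + w) ^ 2 / 2 - 1 / 2 = 1 + w := by nlinarith only [hw2]
  have h6 : (1 + w) * 16 ≤ (1 + w) * (t * (1 + w) ^ 3) := by nlinarith only [h5, e2]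
  exact le_of_mul_le_mul_left h6 (by linarith)

theorem ret_eq {n : ℕ} {x : EuclideanSpace ℝ (Fin n)} (hx : ‖x‖ ≤ 1) :
    (ret x : EuclideanSpace ℝ (Fin n)) = x := by
  show (max 1 ‖x‖)⁻¹ • x = x
  rw [max_eq_left hx, inv_one, one_smul]

theorem radius_ineq {n : ℕ} [Nonempty (Sp n)] (R : Bl n → Sp n → Prop) (hR1 : ∀ x, ∃ y, R x y)
    (hR2 : ∀ y, ∃ x, R x y) {δ δ' : ℝ}
    (hR3 : ∀ x y x' y', R x y → R x' y' → |dist x x' - dist y y'| ≤ δ)
    (hδ : δ < δ') (h43 : δ' < 4 / 3) : 16 ≤ δ' ^ 2 * (1 + √2) ^ 3 := by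
  choose f hf using hR1
  choose g hg using hR2
  have hδ0 : 0 ≤ δ := by
    have := hR3 _ _ _ _ (hf ⟨0, by simp⟩) (hf ⟨0, by simp⟩)
    rw [dist_self, dist_self, sub_zero, abs_zero] at this
    exact this
  have hδ'0 : 0 < δ' := by linarith
  have hε : 0 < (δ' - δ) / 2 := by linarith
  obtain ⟨F, hF⟩ := approxX (fun x : Bl n => (f x : EuclideanSpace ℝ (Fin n))) hε
  obtain ⟨G, hG⟩ := approxX (fun z : Sp n => (g z : EuclideanSpace ℝ (Fin n))) hε
  have hnorm : ∀ x, ‖(f x : EuclideanSpace ℝ (Fin n))‖ = 1 := fun x => mem_Sp.1 (f x).2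
  have hc0 : 0 < 1 - δ' ^ 2 / 2 := by nlinarith only [h43, hδ'0]
  have hclose : ∀ y : Bl n, ∀ u ∈ (fun x => (f x : EuclideanSpace ℝ (Fin n))) ''
      {x | dist x y < (δ' - δ) / 2}, ∀ u' ∈ (fun x => (f x : EuclideanSpace ℝ (Fin n))) ''
      {x | dist x y < (δ' - δ) / 2}, 1 - δ' ^ 2 / 2 ≤ ⟪u, u'⟫ := by
    rintro y _ ⟨x, hx, rfl⟩ _ ⟨x', hx', rfl⟩
    have h1 : dist x x' < δ' - δ := by
      have := dist_triangle_right x x' y
      have h2 : dist x y < (δ' - δ) / 2 := hx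
      have h3 : dist x' y < (δ' - δ) / 2 := hx'
      linarith
    have h2 := hR3 _ _ _ _ (hf x) (hf x')
    rw [abs_le] at h2
    have h3 : dist (f x) (f x') ≤ δ' := by linarith [h2.1]
    rw [Subtype.dist_eq, dist_eq_norm] at h3
    show 1 - δ' ^ 2 / 2 ≤ ⟪(f x : EuclideanSpace ℝ (Fin n)), (f x' : EuclideanSpace ℝ (Fin n))⟫
    rw [inner_eq (hnorm x) (hnorm x')]
    have := pow_le_pow_left₀ (norm_nonneg _) h3 2
    linarith
  -- `⟪F y, F y⟫ ≥ c`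
  have hFF : ∀ y, 1 - δ' ^ 2 / 2 ≤ ‖F y‖ ^ 2 := by
    intro y
    have h1 : ∀ u ∈ (fun x => (f x : EuclideanSpace ℝ (Fin n))) ''
        {x | dist x y < (δ' - δ) / 2}, 1 - δ' ^ 2 / 2 ≤ ⟪u, F y⟫ := by
      intro u hu
      have : convexHull ℝ ((fun x => (f x : EuclideanSpace ℝ (Fin n))) ''
          {x | dist x y < (δ' - δ) / 2}) ⊆ {v | 1 - δ' ^ 2 / 2 ≤ ⟪u, v⟫} :=
        convexHull_min (fun v hv => hclose y u hu v hv)
          (convex_halfSpace_ge (innerₗ _ u).isLinear _)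
      exact this (hF y)
    have h2 : convexHull ℝ ((fun x => (f x : EuclideanSpace ℝ (Fin n))) ''
        {x | dist x y < (δ' - δ) / 2}) ⊆ {v | 1 - δ' ^ 2 / 2 ≤ ⟪F y, v⟫} :=
      convexHull_min (fun v hv => by
        show 1 - δ' ^ 2 / 2 ≤ ⟪F y, v⟫
        rw [real_inner_comm]; exact h1 v hv) (convex_halfSpace_ge (innerₗ _ (F y)).isLinear _)
    have h3 : 1 - δ' ^ 2 / 2 ≤ ⟪F y, F y⟫ := h2 (hF y)
    rwa [real_inner_self_eq_norm_sq] at h3
  have hF0 : ∀ y, F y ≠ 0 := by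
    intro y hy
    have := hFF y
    rw [hy, norm_zero] at this
    linarith
  let zz : EuclideanSpace ℝ (Fin n) → Sp n := fun x =>
    ⟨-(‖F (ret x)‖⁻¹ • F (ret x)), by
      rw [mem_Sp, norm_neg, norm_smul, norm_inv, norm_norm,
        inv_mul_cancel₀ (norm_ne_zero_iff.2 (hF0 _))]⟩
  have hzc : Continuous zz := by
    apply Continuous.subtype_mk
    have h1 : Continuous fun x : EuclideanSpace ℝ (Fin n) => F (ret x) := F.continuous.comp ret_cont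
    have h2 : Continuous fun x : EuclideanSpace ℝ (Fin n) => ‖F (ret x)‖⁻¹ :=
      h1.norm.inv₀ (fun x => norm_ne_zero_iff.2 (hF0 _))
    exact (h2.smul h1).neg
  have hG1 : ∀ z, ‖G z‖ ≤ 1 := by
    intro z
    have h1 : convexHull ℝ ((fun z : Sp n => (g z : EuclideanSpace ℝ (Fin n))) ''
        {x | dist x z < (δ' - δ) / 2}) ⊆ closedBall 0 1 := by
      apply convexHull_min _ (convex_closedBall _ _)
      rintro _ ⟨z', -, rfl⟩
      exact (g z').2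
    have h2 := h1 (hG z)
    rwa [mem_closedBall, dist_zero_right] at h2
  obtain ⟨x, hx⟩ := Helper133.Brouwer.brouwer_euclidean n (fun x => G (zz x)) (G.continuous.comp hzc) 1
    (fun x => hG1 _)
  have hx' : G (zz x) = x := hx
  have hx1 : ‖x‖ ≤ 1 := by rw [← hx']; exact hG1 _
  have hy : (ret x : EuclideanSpace ℝ (Fin n)) = x := ret_eq hx1
  have hxG := hG (zz x)
  rw [hx'] at hxG
  obtain ⟨_, ⟨z', hz', rfl⟩, hs⟩ := near_point (d := δ') hxG (by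
    rintro _ ⟨z1, h1, rfl⟩ _ ⟨z2, h2, rfl⟩
    have h1' : dist z1 (zz x) < (δ' - δ) / 2 := h1
    have h2' : dist z2 (zz x) < (δ' - δ) / 2 := h2
    have h3 := hR3 _ _ _ _ (hg z1) (hg z2)
    rw [abs_le] at h3
    have h4 := dist_triangle_right z1 z2 (zz x)
    have h5 : dist (g z1) (g z2) ≤ δ' := by linarith [h3.2]
    rwa [Subtype.dist_eq, dist_eq_norm] at h5)
  have hz'' : dist z' (zz x) < (δ' - δ) / 2 := hz'
  have hs' : ‖x - (g z' : EuclideanSpace ℝ (Fin n))‖ ≤ δ' * (√2 / 2) := by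
    have h1 : ‖x - (g z' : EuclideanSpace ℝ (Fin n))‖ ^ 2 ≤ (δ' * (√2 / 2)) ^ 2 := by
      have h2 : (δ' * (√2 / 2)) ^ 2 = δ' ^ 2 / 2 := by
        have := Real.sq_sqrt (by norm_num : (0:ℝ) ≤ 2)
        rw [mul_pow, div_pow, this]; ring
      rw [h2]; exact hs
    exact (abs_le_of_sq_le_sq' h1 (by positivity)).2
  have hznorm : ‖(zz x : EuclideanSpace ℝ (Fin n))‖ = 1 := mem_Sp.1 (zz x).2
  have hinner : convexHull ℝ ((fun x => (f x : EuclideanSpace ℝ (Fin n))) ''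
      {x' | dist x' (ret x) < (δ' - δ) / 2}) ⊆
      {v | 1 - δ' ^ 2 * (1 + √2 / 2) ^ 2 / 2 ≤ ⟪(zz x : EuclideanSpace ℝ (Fin n)), v⟫} := by
    apply convexHull_min _ (convex_halfSpace_ge (innerₗ _ (zz x : EuclideanSpace ℝ (Fin n))).isLinear _)
    rintro _ ⟨x', h1, rfl⟩
    have h1' : dist x' (ret x) < (δ' - δ) / 2 := h1
    have h2 := hR3 _ _ _ _ (hf x') (hg z')
    rw [abs_le] at h2
    have h3 : dist x' (g z') ≤ dist x' (ret x) + dist (ret x) (g z') := dist_triangle _ _ _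
    have h4 : dist (ret x) (g z') ≤ δ' * (√2 / 2) := by
      rw [Subtype.dist_eq, dist_eq_norm, hy]; exact hs'
    have h5 : dist (f x') (zz x) ≤ dist (f x') z' + dist z' (zz x) := dist_triangle _ _ _
    have h6 : dist (f x') (zz x) ≤ δ' * (1 + √2 / 2) := by linarith [h2.1]
    rw [Subtype.dist_eq, dist_eq_norm] at h6
    show 1 - δ' ^ 2 * (1 + √2 / 2) ^ 2 / 2 ≤
      ⟪(zz x : EuclideanSpace ℝ (Fin n)), (f x' : EuclideanSpace ℝ (Fin n))⟫
    rw [inner_eq hznorm (hnorm x'), norm_sub_rev]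
    have := pow_le_pow_left₀ (norm_nonneg _) h6 2
    rw [mul_pow] at this
    linarith
  have hin : 1 - δ' ^ 2 * (1 + √2 / 2) ^ 2 / 2 ≤
      ⟪(zz x : EuclideanSpace ℝ (Fin n)), F (ret x)⟫ := hinner (hF _)
  have hval : ⟪(zz x : EuclideanSpace ℝ (Fin n)), F (ret x)⟫ = -‖F (ret x)‖ := by
    show ⟪-(‖F (ret x)‖⁻¹ • F (ret x)), F (ret x)⟫ = -‖F (ret x)‖
    rw [inner_neg_left, real_inner_smul_left, real_inner_self_eq_norm_sq]
    have := norm_ne_zero_iff.2 (hF0 (ret x))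
    field_simp
  rw [hval] at hin
  exact radius_scalar (t := δ' ^ 2) (lam := ‖F (ret x)‖) (by positivity)
    (norm_pos_iff.2 (hF0 _)) (hFF _) (by linarith)

/-- the bound for the Gromov-Hausdorff distance -/
theorem gh_radius {n : ℕ} [Nonempty (Sp n)] (h : ghDist (Bl n) (Sp n) < 2 / 3) :
    4 ≤ ghDist (Bl n) (Sp n) ^ 2 * (1 + √2) ^ 3 := by
  set D := ghDist (Bl n) (Sp n) with hDdef
  have hcl : IsClosed {x : ℝ | 4 ≤ x ^ 2 * (1 + √2) ^ 3} := by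
    apply isClosed_le <;> fun_prop
  have hsub : Set.Ioo D (2 / 3) ⊆ {x : ℝ | 4 ≤ x ^ 2 * (1 + √2) ^ 3} := by
    intro x hx
    obtain ⟨r, hr1, hr2⟩ := exists_between hx.1
    obtain ⟨R, h1, h2, h3⟩ := exists_corr_of_ghDist_lt (hDdef ▸ hr1)
    have := radius_ineq R h1 h2 (δ' := 2 * x) h3 (by linarith) (by linarith [hx.2])
    show 4 ≤ x ^ 2 * (1 + √2) ^ 3
    nlinarith only [this]
  have hmem : D ∈ closure (Set.Ioo D (2 / 3)) := by
    rw [closure_Ioo h.ne]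
    exact ⟨le_rfl, h.le⟩
  exact (hcl.closure_subset_iff.2 hsub) hmem

end Pool.Agent.W826.GHB
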